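import Pool.Agent.Helper10.EP.C3

/-!
MP_627c93_nt, Q2 (infinite sets of primes).

Every finite set of primes is contained in an infinite set `P` of primes such that only finitely
many pairs of consecutive elements of `⟨P⟩` consist of two prime powers.
-/

namespace Pool.Agent.Results.MP_627c93_nt.InfiniteSetNo

open Pool.Agent.Helper10.EP

theorem result (P₀ : Finset ℕ) (hP₀ : ∀ p ∈ P₀, p.Prime) :
    ∃ P : Set ℕ, (P₀ : Set ℕ) ⊆ P ∧ P.Infinite ∧ (∀ p ∈ P, p.Prime) ∧
      {xy : ℕ × ℕ | Consecutive P xy.1 xy.2 ∧ IsPrimePow xy.1 ∧ IsPrimePow xy.2}.Finite :=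
  main P₀ hP₀

end Pool.Agent.Results.MP_627c93_nt.InfiniteSetNo
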