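import Pool.Agent.Helper12.XG.Asm

/-!
MP_627c93_nt, Q2 (sets of `k` primes): the answer is no for every large `k`.

For every `C` there is `k₀` such that for every `k ≥ k₀` and every set `P` of primes (finite or
infinite) containing the first `k` primes `p_1, ..., p_k`:
* only finitely many pairs `x < z` of consecutive elements of `⟨P⟩` have `z / x = q^b / p^a` with
  primes `p, q ≤ exp ((log p_k)^C)`;
* if all primes of `P` are `≤ exp ((log p_k)^C)`, for instance if `P` is the set of the first `k`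
  primes (`C = 1`), then only finitely many pairs of consecutive elements are both prime powers.
-/

namespace Pool.Agent.Results.MP_627c93_nt.LargeKNo

open Pool.Agent.Helper10.EP

theorem result : ∀ C : ℕ, ∃ k₀ : ℕ, ∀ k : ℕ, k₀ ≤ k → ∀ P : Set ℕ,
    (∀ p ∈ P, p.Prime) → (∀ i < k, Nat.nth Nat.Prime i ∈ P) →
    {xz : ℕ × ℕ | Consecutive P xz.1 xz.2 ∧ ∃ g p q a b : ℕ, p.Prime ∧ q.Prime ∧
      Real.log p ≤ Real.log (Nat.nth Nat.Prime (k - 1)) ^ C ∧
      Real.log q ≤ Real.log (Nat.nth Nat.Prime (k - 1)) ^ C ∧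
      xz.1 = g * p ^ a ∧ xz.2 = g * q ^ b}.Finite ∧
    ((∀ p ∈ P, Real.log p ≤ Real.log (Nat.nth Nat.Prime (k - 1)) ^ C) →
      {xz : ℕ × ℕ | Consecutive P xz.1 xz.2 ∧ IsPrimePow xz.1 ∧ IsPrimePow xz.2}.Finite) :=
  Pool.Agent.Helper12.XG.maxK Pool.Agent.Helper12.XG.stMAX

end Pool.Agent.Results.MP_627c93_nt.LargeKNo
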