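import Pool.Agent.Helper14.GS.Fin1
import Pool.Agent.Helper8.GS.M_C1
import Pool.Agent.Helper60.GS.M_C2
import Pool.Agent.Helper42.GS.M_C3
import Pool.Agent.Helper8.GS.M_C4

/-!
MP_627c93_nt, Q2 (sets of `k` primes).

There is `y₀` such that for every finite set `P` of primes containing all primes `≤ y₀` the number
of pairs `x < z` of consecutive elements of `⟨P⟩`, both prime powers, with `x ≤ X`, is at most
`C log log log X`.
-/

namespace Pool.Agent.Results.MP_627c93_nt.TripleLogCount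

open Pool.Agent.Helper10.EP

theorem result : ∃ y₀ : ℕ, ∀ P : Finset ℕ, (∀ p ∈ P, p.Prime) →
    (∀ p : ℕ, p.Prime → p ≤ y₀ → p ∈ P) → ∃ C : ℝ, ∀ X : ℝ, 16 ≤ X →
      {xz : ℕ × ℕ | (xz.1 : ℝ) ≤ X ∧ Consecutive (P : Set ℕ) xz.1 xz.2 ∧ IsPrimePow xz.1 ∧
        IsPrimePow xz.2}.Finite ∧
      ({xz : ℕ × ℕ | (xz.1 : ℝ) ≤ X ∧ Consecutive (P : Set ℕ) xz.1 xz.2 ∧ IsPrimePow xz.1 ∧
        IsPrimePow xz.2}.ncard : ℝ) ≤ C * Real.log (Real.log (Real.log X)) :=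
  Pool.Agent.Helper8.GS.C4 Pool.Agent.Helper14.GS.stB7 Pool.Agent.Helper8.GS.C1
    Pool.Agent.Helper60.GS.C2 Pool.Agent.Helper42.GS.C3

end Pool.Agent.Results.MP_627c93_nt.TripleLogCount
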